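import Pool.Agent.Helper74.LF.All

/-!
# Associativity of the asymptotic ring `J` for Coxeter groups with large labels, any weight function

Let `(W, S)` be a Coxeter group with `S` finite and `L` any weight function. Let `P` run over the irreducible subsets of
`S` with at least three elements in which all `m_ij` are finite. Assume that each such `P` is large (commuting is
transitive on `P`: two different elements of `P` which commute with a third element commute; and the other `m_ij`,
`i ≠ j ∈ P`, are at least `6`) or that `(W_P, L)` satisfies (B), P1, P4, P8 and (U): `J = J J`. Then `(W, L)` satisfies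
(B), P1, P4, P8 and (U), and the product of `J` is associative. In particular this holds for all weight functions if all
`m_ij` are in `{2} ∪ [6, ∞]` and every finite parabolic subgroup of `W` is of type `A_1^k` or `I_2(m)`.
-/

set_option autoImplicit false

open LaurentPolynomial Pool.Agent.Helper15.RA Pool.Agent.Helper45.AM

theorem Pool.Agent.Results.MP_cc6379_al.TransitiveLabels.result
    {S W : Type} [Finite S] [Group W]
    -- the Coxeter group `W` and the weight function `L` (`M i j = 0` means `m_ij = ∞`)
    (M : CoxeterMatrix S) (cs : CoxeterSystem M W) (L : W → ℕ) (hL : IsWeight cs L)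
    -- for `P` with at least three elements, all `m_ij` (`i, j ∈ P`) finite, and irreducible:
    (hyp : ∀ P : Set S, 3 ≤ P.ncard → (∀ i ∈ P, ∀ j ∈ P, M i j ≠ 0) →
      (∀ A ⊆ P, A.Nonempty → A ≠ P → ∃ i ∈ A, ∃ j ∈ P \ A, M i j ≠ 2) →
      -- `P` is large
      ((∀ i ∈ P, ∀ j ∈ P, ∀ k ∈ P, M i j = 2 → M i k = 2 → j ≠ k → M j k = 2) ∧
        ∀ i ∈ P, ∀ j ∈ P, i ≠ j → M i j ≠ 2 → 6 ≤ M i j) ∨
      -- or (B), P1, P4, P8, (U) for `W_P`
      GoodSysU (subM M P).toCoxeterSystem (fun g => L (iotaP cs P g))) :
    -- the Hecke algebra with its bases `T_w`, `c_w` and its bar map exists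
    (∃ (H : Type) (_ : Ring H) (_ : Algebra ℤ[T;T⁻¹] H), Nonempty (Hecke cs L H)) ∧
    -- and for all such data we have (B), P1, P4, P8, (U) and the associativity of `J`
    ∀ (H : Type) [Ring H] [Algebra ℤ[T;T⁻¹] H] (D : Hecke cs L H),
      D.Bdd ∧ ∃ h a, Good D h a ∧ HasU h a ∧ JAssoc h a ∧
        ∀ h' a', D.IsH h' → IsA h' a' → h' = h ∧ a' = a :=
  Pool.Agent.Helper74.LF.mainLF Pool.Agent.Helper74.LF.facts M cs L hL hyp
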